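import Pool.Agent.Lib.BrouwerThm.Basic

/-!
# Face preserving self maps of a convex body are onto (from Brouwer)
-/

set_option autoImplicit false

open Set Metric Topology

namespace MP81308f.Top

variable {E : Type*} [NormedAddCommGroup E] [NormedSpace ℝ E] [FiniteDimensional ℝ E]

/-- A continuous map of a convex body into itself which maps every facet `{φ i = 0}` into
itself hits every interior point. -/
theorem onto {ι : Type*} (P : Set E) (hPc : Convex ℝ P) (hPk : IsCompact P)
    (φ : ι → E →ᵃ[ℝ] ℝ) (hbd : ∀ x ∈ P, x ∉ interior P → ∃ i, φ i x = 0)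
    (hint : ∀ i, ∀ x ∈ interior P, φ i x ≠ 0)
    (F : P → E) (hF : Continuous F) (_hmap : ∀ x, F x ∈ P)
    (hface : ∀ i, ∀ x : P, φ i x = 0 → φ i (F x) = 0)
    (p : E) (hp : p ∈ interior P) : ∃ x, F x = p := by
  classical
  by_contra hne
  push Not at hne
  -- the translated body
  let Q : Set E := (fun y => p + y) ⁻¹' P
  have hQc : Convex ℝ Q := by
    intro x hx y hy a b ha hb hab
    have := hPc hx hy ha hb hab
    have h2 : p + (a • x + b • y) = a • (p + x) + b • (p + y) := by
      rw [smul_add, smul_add]
      have : p = a • p + b • p := by rw [← add_smul, hab, one_smul]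
      nth_rewrite 1 [this]
      abel
    show p + (a • x + b • y) ∈ P
    rw [h2]
    exact this
  have hQk : IsCompact Q := (Homeomorph.addLeft p).isCompact_preimage.2 hPk
  have hint' : interior Q = (fun y => p + y) ⁻¹' interior P :=
    ((Homeomorph.addLeft p).preimage_interior P).symm
  have h0 : (0 : E) ∈ interior Q := by
    rw [hint']
    simpa using hp
  have hQ0 : Q ∈ 𝓝 (0 : E) := mem_interior_iff_mem_nhds.1 h0
  have hgc : Continuous (gauge Q) := continuous_gauge hQc hQ0
  have hle : ∀ y, gauge Q y ≤ 1 ↔ y ∈ Q := by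
    intro y
    rw [gauge_le_one_iff_mem_closure hQc hQ0, hQk.isClosed.closure_eq]
  have hlt : ∀ y, gauge Q y < 1 ↔ y ∈ interior Q := fun y =>
    gauge_lt_one_iff_mem_interior hQc hQ0
  -- radial retraction
  let m : E → ℝ := fun y => max 1 (gauge Q y)
  have hmc : Continuous m := continuous_const.max hgc
  have hm1 : ∀ y, 1 ≤ m y := fun y => le_max_left _ _
  have hm0 : ∀ y, 0 < m y := fun y => lt_of_lt_of_le one_pos (hm1 y)
  let ρ : E → E := fun y => (m y)⁻¹ • y
  have hρc : Continuous ρ := (hmc.inv₀ (fun y => (hm0 y).ne')).smul continuous_id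
  have hgρ : ∀ y, gauge Q (ρ y) = (m y)⁻¹ * gauge Q y := by
    intro y
    show gauge Q ((m y)⁻¹ • y) = _
    rw [gauge_smul_of_nonneg (inv_nonneg.2 (hm0 y).le), smul_eq_mul]
  have hρQ : ∀ y, p + ρ y ∈ P := by
    intro y
    have : ρ y ∈ Q := by
      rw [← hle, hgρ]
      rw [inv_mul_le_iff₀ (hm0 y), mul_one]
      exact le_max_right _ _
    exact this
  have hρ1 : ∀ y, 1 ≤ gauge Q y → p + ρ y ∉ interior P := by
    intro y hy hy2
    have : ρ y ∈ interior Q := by rw [hint']; exact hy2
    rw [← hlt, hgρ] at this
    have h3 : m y = gauge Q y := max_eq_right hy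
    rw [h3, inv_mul_cancel₀ (lt_of_lt_of_le one_pos hy).ne'] at this
    exact lt_irrefl _ this
  let r : E → P := fun y => ⟨p + ρ y, hρQ y⟩
  have hrc : Continuous r := Continuous.subtype_mk (continuous_const.add hρc) _
  let a : E → ℝ := fun y => max 0 (min 1 (gauge Q y - 1))
  have hac : Continuous a := continuous_const.max (continuous_const.min (hgc.sub continuous_const))
  let B : E → E := fun y => (1 - a y) • (F (r y) - p) + a y • ρ y
  have hBc : Continuous B :=
    ((continuous_const.sub hac).smul ((hF.comp hrc).sub continuous_const)).add (hac.smul hρc)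
  let s : E → ℝ := fun y => 1 + max 0 (min 1 (gauge Q y - 2)) * (gauge Q y - 1)
  have hsc : Continuous s :=
    continuous_const.add ((continuous_const.max (continuous_const.min
      (hgc.sub continuous_const))).mul (hgc.sub continuous_const))
  let H : E → E := fun y => s y • B y
  have hHc : Continuous H := hsc.smul hBc
  -- nonvanishing
  have hB0 : ∀ y, B y ≠ 0 := by
    intro y hy
    rcases le_or_gt (gauge Q y) 1 with h1 | h1
    · have ha : a y = 0 := by
        show max 0 (min 1 (gauge Q y - 1)) = 0
        apply max_eq_left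
        exact (min_le_right _ _).trans (by linarith)
      have : F (r y) - p = 0 := by
        have := hy
        simp only [B, ha, sub_zero, one_smul, zero_smul, add_zero] at this
        exact this
      exact hne (r y) (sub_eq_zero.1 this)
    · obtain ⟨i, hi⟩ := hbd _ (hρQ y) (hρ1 y h1.le)
      have h2 : φ i (F (r y)) = 0 := hface i (r y) hi
      have h3 : F (r y) = p + (F (r y) - p) := by abel
      have h4 : φ i (p + B y) = 0 := by
        have h5 : p + B y = (1 - a y) • F (r y) + a y • (p + ρ y) := by
          simp only [B]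
          rw [smul_sub, sub_smul, sub_smul, one_smul, one_smul, smul_add]
          abel
        rw [h5]
        have h6 : (1 - a y) • F (r y) + a y • (p + ρ y)
            = AffineMap.lineMap (F (r y)) (p + ρ y) (a y) := by
          rw [AffineMap.lineMap_apply_module]
        rw [h6, AffineMap.apply_lineMap, h2, hi]
        simp
      rw [hy, add_zero] at h4
      exact hint i p hp h4
  have hs0 : ∀ y, 0 < s y := by
    intro y
    show 0 < 1 + max 0 (min 1 (gauge Q y - 2)) * (gauge Q y - 1)
    rcases le_or_gt (gauge Q y) 2 with h1 | h1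
    · have : max 0 (min 1 (gauge Q y - 2)) = 0 := by
        apply max_eq_left
        exact (min_le_right _ _).trans (by linarith)
      rw [this]
      simp
    · have h2 : 0 ≤ max 0 (min 1 (gauge Q y - 2)) := le_max_left _ _
      have h3 : 0 ≤ max 0 (min 1 (gauge Q y - 2)) * (gauge Q y - 1) :=
        mul_nonneg h2 (by linarith)
      linarith
  -- identity far away
  obtain ⟨R, hR⟩ := hQk.isBounded.subset_closedBall (0 : E)
  let R' : ℝ := max R 1
  have hR' : Q ⊆ closedBall 0 R' := hR.trans (closedBall_subset_closedBall (le_max_left _ _))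
  have hR0 : 0 < R' := lt_of_lt_of_le one_pos (le_max_right _ _)
  have hfar : ∀ y, 3 * R' ≤ ‖y‖ → H y = y := by
    intro y hy
    have h1 : ‖y‖ / R' ≤ gauge Q y :=
      le_gauge_of_subset_closedBall (absorbent_nhds_zero hQ0) hR0.le hR'
    have h2 : 3 ≤ gauge Q y := by
      refine le_trans ?_ h1
      rw [le_div_iff₀ hR0]
      exact hy
    have ha : a y = 1 := by
      show max 0 (min 1 (gauge Q y - 1)) = 1
      rw [min_eq_left (by linarith), max_eq_right (by norm_num)]
    have hs : s y = gauge Q y := by
      show 1 + max 0 (min 1 (gauge Q y - 2)) * (gauge Q y - 1) = _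
      rw [min_eq_left (by linarith), max_eq_right (by norm_num)]
      ring
    have hm : m y = gauge Q y := max_eq_right (by linarith)
    show s y • ((1 - a y) • (F (r y) - p) + a y • ρ y) = y
    rw [ha, hs]
    simp only [sub_self, zero_smul, zero_add, one_smul]
    show gauge Q y • ((m y)⁻¹ • y) = y
    rw [hm, smul_smul, mul_inv_cancel₀ (by linarith), one_smul]
  obtain ⟨y, hy⟩ := Pool.Agent.Lib.BrouwerThm.exists_zero_of_eq_linear
    (ContinuousLinearEquiv.refl ℝ E) H hHc (3 * R') (by
      intro x hx
      rw [hfar x hx]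
      rfl)
  rcases smul_eq_zero.1 hy with h | h
  · exact (hs0 y).ne' h
  · exact hB0 y h

end MP81308f.Top
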